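import Pool.Agent.Lib.MP_6faade_an.Isotopy

open Set unitInterval Filter Topology
open scoped OnePoint

namespace Pool.Agent.Lib.MP_6faade_an

lemma tendsto_norm_of_le {f : ℝ → ℂ} (C : ℝ) (h : ∀ s, 0 ≤ s → s - C ≤ ‖f s‖) :
    Tendsto (fun s => ‖f s‖) atTop atTop := by
  apply tendsto_atTop_mono' atTop _ (tendsto_atTop_add_const_right atTop (-C) tendsto_id)
  filter_upwards [eventually_ge_atTop 0] with s hs
  simpa [sub_eq_add_neg] using h s hs

/-- The straight ray `s ↦ z + s * d` with `‖d‖ = 1`. -/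
noncomputable def lineRay (z d : ℂ) (hd : ‖d‖ = 1) : Ray where
  f s := z + (s : ℂ) * d
  cont := by fun_prop
  inj := by
    intro s _ t _ h
    have hd0 : d ≠ 0 := by intro e; simp [e] at hd
    have h1 : (s : ℂ) * d = t * d := add_left_cancel h
    exact_mod_cast mul_right_cancel₀ hd0 h1
  tends := by
    apply tendsto_norm_of_le ‖z‖
    intro s hs
    have h1 : ‖(s : ℂ) * d‖ = s := by simp [hd, abs_of_nonneg hs]
    have h2 := norm_sub_norm_le ((s : ℂ) * d) (-z)
    rw [h1, norm_neg] at h2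
    have : (s : ℂ) * d - -z = z + s * d := by ring
    rwa [this] at h2

/-- The shear profile `ε * sqrt (max x b ^ 2 - b ^ 2)`. -/
noncomputable def prof (ε b : ℝ) (x : ℝ) : ℝ := ε * Real.sqrt (max x b ^ 2 - b ^ 2)

lemma prof_cont (ε b : ℝ) : Continuous (prof ε b) := by
  unfold prof; fun_prop

lemma prof_of_le (ε b : ℝ) {x : ℝ} (h : x ≤ b) : prof ε b x = 0 := by
  simp [prof, max_eq_right h]

lemma prof_bound {ε b : ℝ} (hε : |ε| = 1) (hb : 0 < b) (x : ℝ) : |prof ε b x| ≤ |x| := by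
  rcases le_total x b with h | h
  · rw [prof_of_le ε b h]; simp
  · rw [prof, abs_mul, hε, one_mul, max_eq_left h, abs_of_nonneg (Real.sqrt_nonneg _)]
    apply Real.sqrt_le_iff.mpr
    refine ⟨abs_nonneg _, ?_⟩
    rw [sq_abs]
    nlinarith

/-- The branch of the hyperbola `x ^ 2 - y ^ 2 = b ^ 2` starting at `b`. -/
noncomputable def hypRay (ε b : ℝ) : Ray where
  f s := ((b + s : ℝ) : ℂ) + (prof ε b (b + s) : ℂ) * Complex.I
  cont := by have := prof_cont ε b; fun_prop
  inj := by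
    intro s _ t _ h
    have := congrArg Complex.re h
    simpa using this
  tends := by
    apply tendsto_norm_of_le |b|
    intro s hs
    have h1 := Complex.abs_re_le_norm (((b + s : ℝ) : ℂ) + (prof ε b (b + s) : ℂ) * Complex.I)
    have h2 : (((b + s : ℝ) : ℂ) + (prof ε b (b + s) : ℂ) * Complex.I).re = b + s := by simp
    rw [h2] at h1
    have h3 := le_abs_self (b + s)
    have h4 := neg_abs_le b
    linarith

lemma norm_eps {ε : ℝ} (hε : |ε| = 1) : ‖(ε : ℂ) * Complex.I‖ = 1 := by simp [hε]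

/-- The single ray `[a, ∞]`. -/
noncomputable def famLine (a : ℝ) : RayFamily 1 where
  r _ := lineRay a 1 (by simp)
  disj i j h := absurd (Subsingleton.elim i j) h

/-- The straight star `[-∞, a] ∪ [b, ∞] ∪ ε i [0, ∞]`. -/
noncomputable def famStar {a b ε : ℝ} (ha : a < 0) (hb : 0 < b) (hε : |ε| = 1) : RayFamily 3 where
  r := ![lineRay a (-1) (by simp), lineRay b 1 (by simp), lineRay 0 (ε * Complex.I) (norm_eps hε)]
  disj := by
    intro i j h s t hs ht e
    have := congrArg Complex.re e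
    fin_cases i <;> fin_cases j <;> simp [lineRay] at this h <;> linarith

/-- The star with the middle leg bent along the hyperbola. -/
noncomputable def famBent {a b ε : ℝ} (ha : a < 0) (hb : 0 < b) (hε : |ε| = 1) : RayFamily 3 where
  r := ![lineRay a (-1) (by simp), hypRay ε b, lineRay 0 (ε * Complex.I) (norm_eps hε)]
  disj := by
    intro i j h s t hs ht e
    have := congrArg Complex.re e
    fin_cases i <;> fin_cases j <;> simp [lineRay, hypRay] at this h <;> linarith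

lemma mem_line (a : ℝ) (x : Sphere) :
    x ∈ (famLine a).tree.carrier ↔ x = ∞ ∨ ∃ s : ℝ, 0 ≤ s ∧ x = (((a + s : ℝ) : ℂ) : Sphere) := by
  rw [RayFamily.mem_carrier]
  simp [famLine, lineRay]

lemma mem_star {a b ε : ℝ} (ha : a < 0) (hb : 0 < b) (hε : |ε| = 1) (x : Sphere) :
    x ∈ (famStar ha hb hε).tree.carrier ↔ x = ∞ ∨
      (∃ s : ℝ, 0 ≤ s ∧ x = (((a - s : ℝ) : ℂ) : Sphere)) ∨
      (∃ s : ℝ, 0 ≤ s ∧ x = (((b + s : ℝ) : ℂ) : Sphere)) ∨
      (∃ s : ℝ, 0 ≤ s ∧ x = ((((ε * s : ℝ) : ℂ) * Complex.I : ℂ) : Sphere)) := by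
  rw [RayFamily.mem_carrier, Fin.exists_fin_succ, Fin.exists_fin_succ, Fin.exists_fin_one]
  have : ∀ s : ℝ, (s : ℂ) * (ε * Complex.I) = ε * s * Complex.I := fun s => by ring
  simp [famStar, lineRay, sub_eq_add_neg, this]

lemma mem_bent {a b ε : ℝ} (ha : a < 0) (hb : 0 < b) (hε : |ε| = 1) (x : Sphere) :
    x ∈ (famBent ha hb hε).tree.carrier ↔ x = ∞ ∨
      (∃ s : ℝ, 0 ≤ s ∧ x = (((a - s : ℝ) : ℂ) : Sphere)) ∨
      (∃ s : ℝ, 0 ≤ s ∧
        x = ((((b + s : ℝ) : ℂ) + (prof ε b (b + s) : ℂ) * Complex.I : ℂ) : Sphere)) ∨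
      (∃ s : ℝ, 0 ≤ s ∧ x = ((((ε * s : ℝ) : ℂ) * Complex.I : ℂ) : Sphere)) := by
  rw [RayFamily.mem_carrier, Fin.exists_fin_succ, Fin.exists_fin_succ, Fin.exists_fin_one]
  have : ∀ s : ℝ, (s : ℂ) * (ε * Complex.I) = ε * s * Complex.I := fun s => by ring
  simp [famBent, lineRay, hypRay, sub_eq_add_neg, this]

lemma shear_star {a b ε : ℝ} (ha : a < 0) (hb : 0 < b) (hε : |ε| = 1) :
    OnePoint.map (shear (prof ε b) (prof_cont ε b)) '' (famStar ha hb hε).tree.carrier =
      (famBent ha hb hε).tree.carrier := by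
  have e1 : ∀ s : ℝ, 0 ≤ s →
      shear (prof ε b) (prof_cont ε b) ((a - s : ℝ) : ℂ) = ((a - s : ℝ) : ℂ) := by
    intro s hs
    rw [shear_apply, Complex.ofReal_re, prof_of_le ε b (by linarith)]; simp
  have e2 : ∀ s : ℝ, shear (prof ε b) (prof_cont ε b) ((b + s : ℝ) : ℂ) =
      ((b + s : ℝ) : ℂ) + (prof ε b (b + s) : ℂ) * Complex.I := by
    intro s
    rw [shear_apply, Complex.ofReal_re]
  have e3 : ∀ s : ℝ, shear (prof ε b) (prof_cont ε b) (((ε * s : ℝ) : ℂ) * Complex.I) =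
      ((ε * s : ℝ) : ℂ) * Complex.I := by
    intro s
    have : (((ε * s : ℝ) : ℂ) * Complex.I).re = 0 := by simp
    rw [shear_apply, this, prof_of_le ε b hb.le]; simp
  ext x
  rw [mem_bent]
  constructor
  · rintro ⟨y, hy, rfl⟩
    rw [mem_star] at hy
    rcases hy with rfl | ⟨s, hs, rfl⟩ | ⟨s, hs, rfl⟩ | ⟨s, hs, rfl⟩
    · exact Or.inl rfl
    · exact Or.inr (Or.inl ⟨s, hs, by rw [OnePoint.map_some, e1 s hs]⟩)
    · exact Or.inr (Or.inr (Or.inl ⟨s, hs, by rw [OnePoint.map_some, e2 s]⟩))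
    · exact Or.inr (Or.inr (Or.inr ⟨s, hs, by rw [OnePoint.map_some, e3 s]⟩))
  · rintro (rfl | ⟨s, hs, rfl⟩ | ⟨s, hs, rfl⟩ | ⟨s, hs, rfl⟩)
    · exact ⟨∞, (mem_star ..).mpr (Or.inl rfl), rfl⟩
    · exact ⟨_, (mem_star ..).mpr (Or.inr (Or.inl ⟨s, hs, rfl⟩)),
        by rw [OnePoint.map_some, e1 s hs]⟩
    · exact ⟨_, (mem_star ..).mpr (Or.inr (Or.inr (Or.inl ⟨s, hs, rfl⟩))),
        by rw [OnePoint.map_some, e2 s]⟩
    · exact ⟨_, (mem_star ..).mpr (Or.inr (Or.inr (Or.inr ⟨s, hs, rfl⟩))),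
        by rw [OnePoint.map_some, e3 s]⟩

lemma quad_coe (c z : ℂ) : quad c (z : Sphere) = ((z ^ 2 + c : ℂ) : Sphere) := rfl

lemma quad_infty (c : ℂ) : quad c ∞ = ∞ := rfl

lemma mapsTo_postcritical (c : ℂ) : MapsTo (quad c) (postcritical c) (postcritical c) := by
  rintro x (⟨n, rfl⟩ | hx)
  · exact Or.inl ⟨n + 1, (Function.iterate_succ_apply' _ _ _).symm⟩
  · rw [mem_singleton_iff.mp hx]; exact Or.inr rfl

section airplane

variable {a : ℝ} (h1 : a < -1) (h2 : (a ^ 2 + a) ^ 2 + a = 0)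
include h2

lemma mem_postcritical (x : Sphere) : x ∈ postcritical (a : ℂ) ↔
    x = ∞ ∨ x = ((a : ℂ) : Sphere) ∨ x = (((a ^ 2 + a : ℝ) : ℂ) : Sphere) ∨
      x = ((0 : ℂ) : Sphere) := by
  have q1 : quad a ((a : ℂ) : Sphere) = (((a ^ 2 + a : ℝ) : ℂ) : Sphere) := by
    rw [quad_coe]; push_cast; rfl
  have q2 : quad a (((a ^ 2 + a : ℝ) : ℂ) : Sphere) = ((0 : ℂ) : Sphere) := by
    rw [quad_coe]; congr 1; exact_mod_cast h2
  have q3 : quad a ((0 : ℂ) : Sphere) = ((a : ℂ) : Sphere) := by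
    rw [quad_coe]; simp
  constructor
  · rintro (⟨n, rfl⟩ | hx)
    · right
      induction n with
      | zero => exact Or.inl rfl
      | succ n ih =>
        rw [Function.iterate_succ_apply']
        rcases ih with h | h | h
        · rw [h, q1]; exact Or.inr (Or.inl rfl)
        · rw [h, q2]; exact Or.inr (Or.inr rfl)
        · rw [h, q3]; exact Or.inl rfl
    · exact Or.inl hx
  · rintro (rfl | rfl | rfl | rfl)
    · exact Or.inr rfl
    · exact Or.inl ⟨0, rfl⟩
    · exact Or.inl ⟨1, q1.symm⟩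
    · exact Or.inl ⟨2, by rw [Function.iterate_succ_apply', Function.iterate_one, q1, q2]⟩

lemma finite_postcritical : (postcritical (a : ℂ)).Finite := by
  apply Set.Finite.subset (s := {∞, ((a : ℂ) : Sphere), (((a ^ 2 + a : ℝ) : ℂ) : Sphere),
    ((0 : ℂ) : Sphere)}) (Set.toFinite _)
  intro x hx
  simpa using (mem_postcritical h2 x).mp hx

include h1

omit h2 in
lemma b_pos : 0 < a ^ 2 + a := by nlinarith

lemma line_invariant : IsInvariantIvy a (famLine a).tree := by
  have hb := b_pos h1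
  have p0 : ∞ ∈ postcritical (a : ℂ) := Or.inr rfl
  have pa : ((a : ℂ) : Sphere) ∈ postcritical (a : ℂ) := Or.inl ⟨0, rfl⟩
  have p1 : ∀ i, ((((famLine a).r i).f 0 : ℂ) : Sphere) ∈ postcritical (a : ℂ) := by
    intro i; simpa [famLine, lineRay] using pa
  have hs : (famLine a).tree.Spans (postcritical (a : ℂ)) := by
    refine ⟨?_, RayFamily.endpoints_subset _ p0 p1⟩
    intro x hx
    rw [mem_line]
    rcases (mem_postcritical h2 x).mp hx with rfl | rfl | rfl | rfl
    · exact Or.inl rfl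
    · exact Or.inr ⟨0, le_rfl, by simp⟩
    · exact Or.inr ⟨a ^ 2, by positivity, by rw [add_comm]⟩
    · exact Or.inr ⟨-a, by linarith, by simp⟩
  refine ⟨(famLine a).tree, IsotopicRel.refl _ _, hs, hs, ?_, ?_, Or.inl pa, Or.inl p0⟩
  · intro x hx
    rw [mem_line] at hx ⊢
    rcases hx with rfl | ⟨s, hs, rfl⟩
    · exact Or.inl rfl
    · refine Or.inr ⟨(a + s) ^ 2, by positivity, ?_⟩
      rw [quad_coe]; congr 1; push_cast; ring
  · rw [RayFamily.vertexSet_eq _ p0 p1]
    exact mapsTo_postcritical _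

lemma star_invariant {ε : ℝ} (hε : |ε| = 1) :
    IsInvariantIvy a (famStar (show a < 0 by linarith) (b_pos h1) hε).tree := by
  have hb := b_pos h1
  have ha : a < 0 := by linarith
  have hε2 : ε ^ 2 = 1 := by rw [← sq_abs, hε]; norm_num
  have p0 : ∞ ∈ postcritical (a : ℂ) := Or.inr rfl
  have pa : ((a : ℂ) : Sphere) ∈ postcritical (a : ℂ) := Or.inl ⟨0, rfl⟩
  have pb : (((a ^ 2 + a : ℝ) : ℂ) : Sphere) ∈ postcritical (a : ℂ) :=
    (mem_postcritical h2 _).mpr (Or.inr (Or.inr (Or.inl rfl)))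
  have pz : ((0 : ℂ) : Sphere) ∈ postcritical (a : ℂ) :=
    (mem_postcritical h2 _).mpr (Or.inr (Or.inr (Or.inr rfl)))
  have p1 : ∀ i, ((((famStar ha hb hε).r i).f 0 : ℂ) : Sphere) ∈ postcritical (a : ℂ) := by
    intro i
    fin_cases i
    · simpa [famStar, lineRay] using pa
    · simpa [famStar, lineRay] using pb
    · simpa [famStar, lineRay] using pz
  have p2 : ∀ i, ((((famBent ha hb hε).r i).f 0 : ℂ) : Sphere) ∈ postcritical (a : ℂ) := by
    intro i
    fin_cases i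
    · simpa [famBent, lineRay] using pa
    · simpa [famBent, hypRay, prof_of_le] using pb
    · simpa [famBent, lineRay] using pz
  have hs1 : (famStar ha hb hε).tree.Spans (postcritical (a : ℂ)) := by
    refine ⟨?_, RayFamily.endpoints_subset _ p0 p1⟩
    intro x hx
    rw [mem_star]
    rcases (mem_postcritical h2 x).mp hx with rfl | rfl | rfl | rfl
    · exact Or.inl rfl
    · exact Or.inr (Or.inl ⟨0, le_rfl, by simp⟩)
    · exact Or.inr (Or.inr (Or.inl ⟨0, le_rfl, by simp⟩))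
    · exact Or.inr (Or.inr (Or.inr ⟨0, le_rfl, by simp⟩))
  have hs2 : (famBent ha hb hε).tree.Spans (postcritical (a : ℂ)) := by
    refine ⟨?_, RayFamily.endpoints_subset _ p0 p2⟩
    intro x hx
    rw [mem_bent]
    rcases (mem_postcritical h2 x).mp hx with rfl | rfl | rfl | rfl
    · exact Or.inl rfl
    · exact Or.inr (Or.inl ⟨0, le_rfl, by simp⟩)
    · exact Or.inr (Or.inr (Or.inl ⟨0, le_rfl, by simp [prof_of_le]⟩))
    · exact Or.inr (Or.inr (Or.inr ⟨0, le_rfl, by simp⟩))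
  refine ⟨(famBent ha hb hε).tree, ?_, hs2, hs1, ?_, ?_, Or.inl pa, Or.inl p0⟩
  · apply IsotopicRel.symm
    rw [← shear_star]
    apply isotopicRel_shear _ _ (prof_bound hε hb)
    intro z hz
    apply prof_of_le
    rcases (mem_postcritical h2 _).mp hz with h | h | h | h
    · exact absurd h (OnePoint.coe_ne_infty _)
    · rw [OnePoint.coe_eq_coe.mp h, Complex.ofReal_re]; linarith
    · rw [OnePoint.coe_eq_coe.mp h, Complex.ofReal_re]
    · rw [OnePoint.coe_eq_coe.mp h, Complex.zero_re]; linarith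
  · intro x hx
    rw [mem_bent] at hx
    rw [mem_star]
    rcases hx with rfl | ⟨s, hs, rfl⟩ | ⟨s, hs, rfl⟩ | ⟨s, hs, rfl⟩
    · exact Or.inl rfl
    · refine Or.inr (Or.inr (Or.inl ⟨s ^ 2 - 2 * a * s, by nlinarith, ?_⟩))
      rw [quad_coe]; congr 1; push_cast; ring
    · set b := a ^ 2 + a with hbdef
      set y := Real.sqrt ((b + s) ^ 2 - b ^ 2) with hy
      have hy0 : 0 ≤ y := Real.sqrt_nonneg _
      have hy2 : y ^ 2 = (b + s) ^ 2 - b ^ 2 := Real.sq_sqrt (by nlinarith)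
      have hp : prof ε b (b + s) = ε * y := by
        rw [prof, max_eq_left (by linarith)]
      refine Or.inr (Or.inr (Or.inr ⟨2 * (b + s) * y, by positivity, ?_⟩))
      rw [quad_coe, hp]; congr 1
      apply Complex.ext
      · simp [pow_two]
        nlinarith
      · simp [pow_two]
        ring
    · refine Or.inr (Or.inl ⟨s ^ 2, by positivity, ?_⟩)
      rw [quad_coe]; congr 1
      apply Complex.ext
      · simp [pow_two]
        nlinarith
      · simp [pow_two]
  · rw [RayFamily.vertexSet_eq _ p0 p1, RayFamily.vertexSet_eq _ p0 p2]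
    exact mapsTo_postcritical _

lemma line_not_star {ε : ℝ} (hε : |ε| = 1) :
    ¬ IsotopicRel (postcritical (a : ℂ)) (famLine a).tree.carrier
      (famStar (show a < 0 by linarith) (b_pos h1) hε).tree.carrier := by
  have hb := b_pos h1
  have ha : a < 0 := by linarith
  apply not_isotopic_of_gap ha (Or.inr rfl) (Or.inl ⟨0, rfl⟩)
    ((mem_postcritical h2 _).mpr (Or.inr (Or.inr (Or.inr rfl))))
  · intro x hx _
    rw [mem_line]
    exact Or.inr ⟨x - a, by linarith, by simp⟩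
  · intro z hz
    rw [mem_star] at hz
    rcases hz with h | ⟨s, hs, h⟩ | ⟨s, hs, h⟩ | ⟨s, hs, h⟩
    · exact absurd h (OnePoint.coe_ne_infty _)
    · rw [OnePoint.coe_eq_coe.mp h, Complex.ofReal_re]; linarith
    · rw [OnePoint.coe_eq_coe.mp h, Complex.ofReal_re]; linarith
    · rw [OnePoint.coe_eq_coe.mp h]; simp; linarith

lemma star_not_star :
    ¬ IsotopicRel (postcritical (a : ℂ))
      (famStar (show a < 0 by linarith) (b_pos h1) (abs_one)).tree.carrier
      (famStar (show a < 0 by linarith) (b_pos h1) (show |(-1 : ℝ)| = 1 by simp)).tree.carrier := by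
  have hb := b_pos h1
  have ha : a < 0 := by linarith
  apply not_isotopic_of_winding ha hb (Or.inr rfl) (Or.inl ⟨0, rfl⟩)
    ((mem_postcritical h2 _).mpr (Or.inr (Or.inr (Or.inl rfl))))
    ((mem_postcritical h2 _).mpr (Or.inr (Or.inr (Or.inr rfl))))
  · intro z hz
    rw [mem_star] at hz
    rcases hz with h | ⟨s, hs, h⟩ | ⟨s, hs, h⟩ | ⟨s, hs, h⟩
    · exact absurd h (OnePoint.coe_ne_infty _)
    · rw [OnePoint.coe_eq_coe.mp h, Complex.ofReal_im]
    · rw [OnePoint.coe_eq_coe.mp h, Complex.ofReal_im]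
    · rw [OnePoint.coe_eq_coe.mp h]; simpa using hs
  · intro s hs
    rw [mem_star]
    exact Or.inr (Or.inr (Or.inr ⟨s, hs, by simp⟩))

end airplane

lemma exists_airplane : ∃ a : ℝ, a < -1 ∧ a ^ 3 + 2 * a ^ 2 + a + 1 = 0 := by
  have hc : Continuous (fun a : ℝ => a ^ 3 + 2 * a ^ 2 + a + 1) := by fun_prop
  have := intermediate_value_Icc (show (-2 : ℝ) ≤ -3 / 2 by norm_num) hc.continuousOn
  obtain ⟨a, ha, h⟩ := this (show (0 : ℝ) ∈ Icc _ _ from ⟨by norm_num, by norm_num⟩)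
  exact ⟨a, by linarith [ha.2], h⟩

theorem three_invariant :
    ∃ c : ℝ, c ^ 3 + 2 * c ^ 2 + c + 1 = 0 ∧ (postcritical (c : ℂ)).Finite ∧
      ∃ T : Fin 3 → SphereTree, (∀ i, IsInvariantIvy (c : ℂ) (T i)) ∧
        ∀ i j, i ≠ j → ¬ IsotopicRel (postcritical (c : ℂ)) (T i).carrier (T j).carrier := by
  obtain ⟨a, h1, h⟩ := exists_airplane
  have h2 : (a ^ 2 + a) ^ 2 + a = 0 := by linear_combination a * h
  have hm : |(-1 : ℝ)| = 1 := by simp
  refine ⟨a, h, finite_postcritical h2,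
    ![(famLine a).tree, (famStar (show a < 0 by linarith) (b_pos h1) abs_one).tree,
      (famStar (show a < 0 by linarith) (b_pos h1) hm).tree], ?_, ?_⟩
  · intro i
    fin_cases i
    · exact line_invariant h1 h2
    · exact star_invariant h1 h2 abs_one
    · exact star_invariant h1 h2 hm
  · intro i j hij
    fin_cases i <;> fin_cases j
    · exact absurd rfl hij
    · exact line_not_star h1 h2 abs_one
    · exact line_not_star h1 h2 hm
    · exact fun h => line_not_star h1 h2 abs_one h.symm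
    · exact absurd rfl hij
    · exact star_not_star h1 h2
    · exact fun h => line_not_star h1 h2 hm h.symm
    · exact fun h => star_not_star h1 h2 h.symm
    · exact absurd rfl hij

end Pool.Agent.Lib.MP_6faade_an
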