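import Mathlib

/-!
Definitions for the problem on invariant ivy objects of quadratic polynomials.
The sphere is the one-point compactification of the complex plane.
-/

open Set OnePoint unitInterval

namespace Pool.Agent.Lib.MP_6faade_an

/-- The sphere `ℂ ∪ {∞}`. -/
abbrev Sphere : Type := OnePoint ℂ

/-- The quadratic polynomial `z ↦ z ^ 2 + c` as a self-map of the sphere (`∞ ↦ ∞`). -/
noncomputable def quad (c : ℂ) : Sphere → Sphere := OnePoint.map fun z => z ^ 2 + c

/-- The post-critical set `{p^n(c) : n ≥ 0} ∪ {∞}` of `p(z) = z ^ 2 + c`. -/
def postcritical (c : ℂ) : Set Sphere :=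
  {x | ∃ n : ℕ, x = (quad c)^[n] (c : Sphere)} ∪ {∞}

/-- A finite topological tree in the sphere, given as an embedded finite combinatorial tree:
nodes go to distinct points, every edge goes to a simple arc between its two nodes,
an arc meets a node only at an end of the arc, and the arcs of two different edges meet only at
ends of both. -/
structure SphereTree where
  /-- the nodes of the combinatorial tree -/
  V : Type
  finite : Finite V
  /-- the combinatorial tree -/
  graph : SimpleGraph V
  isTree : graph.IsTree
  /-- the position of a node -/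
  pos : V → Sphere
  pos_injective : Function.Injective pos
  /-- the arc drawn for an edge -/
  arc : ∀ u v : V, graph.Adj u v → Path (pos u) (pos v)
  arc_injective : ∀ u v h, Function.Injective (arc u v h)
  arc_symm : ∀ u v (h : graph.Adj u v), arc v u h.symm = (arc u v h).symm
  arc_node : ∀ u v h (w : V) (t : I), arc u v h t = pos w → t = 0 ∨ t = 1
  arc_arc : ∀ u v h u' v' h', s(u, v) ≠ s(u', v') →
    ∀ t t' : I, arc u v h t = arc u' v' h' t' → (t = 0 ∨ t = 1) ∧ (t' = 0 ∨ t' = 1)

namespace SphereTree

/-- The tree as a subset of the sphere: all nodes and all arcs. -/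
def carrier (T : SphereTree) : Set Sphere :=
  range T.pos ∪ {x | ∃ (u v : T.V) (h : T.graph.Adj u v) (t : I), x = T.arc u v h t}

/-- The endpoints of the tree: nodes with at most one incident edge. -/
def endpoints (T : SphereTree) : Set Sphere :=
  T.pos '' {v | (T.graph.neighborSet v).ncard ≤ 1}

/-- The branch points of the tree: nodes with at least three incident edges. -/
def branchPoints (T : SphereTree) : Set Sphere :=
  T.pos '' {v | 3 ≤ (T.graph.neighborSet v).ncard}

/-- `T` is a spanning tree for `P`: it contains `P` and all its endpoints lie in `P`. -/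
def Spans (T : SphereTree) (P : Set Sphere) : Prop :=
  P ⊆ T.carrier ∧ T.endpoints ⊆ P

/-- The vertex set `V(T)` of a spanning tree for `P`: the points of `P` and the branch points. -/
def vertexSet (T : SphereTree) (P : Set Sphere) : Set Sphere :=
  P ∪ T.branchPoints

end SphereTree

/-- `A` is carried onto `B` by an isotopy of the sphere, starting at the identity, that fixes
`P` pointwise at all times. -/
def IsotopicRel (P A B : Set Sphere) : Prop :=
  ∃ H : I → Sphere ≃ₜ Sphere, Continuous (fun q : I × Sphere => H q.1 q.2) ∧
    (∀ x, H 0 x = x) ∧ (∀ t, ∀ x ∈ P, H t x = x) ∧ H 1 '' A = B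

/-- `(S, T)` is a dynamical tree pair for `p(z) = z ^ 2 + c`: both are spanning trees for the
post-critical set `P`, `p(S) ⊆ T`, `p(V(S)) ⊆ V(T)`, and the critical values `c` and `∞` are
vertices of `T`. -/
def IsDynamicalPair (c : ℂ) (S T : SphereTree) : Prop :=
  S.Spans (postcritical c) ∧ T.Spans (postcritical c) ∧
    MapsTo (quad c) S.carrier T.carrier ∧
    MapsTo (quad c) (S.vertexSet (postcritical c)) (T.vertexSet (postcritical c)) ∧
    (c : Sphere) ∈ T.vertexSet (postcritical c) ∧ ∞ ∈ T.vertexSet (postcritical c)

/-- The ivy object `[T]` is invariant: some spanning tree `S` isotopic to `T` relative to the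
post-critical set forms a dynamical tree pair `(S, T)`. -/
def IsInvariantIvy (c : ℂ) (T : SphereTree) : Prop :=
  ∃ S : SphereTree, IsotopicRel (postcritical c) S.carrier T.carrier ∧ IsDynamicalPair c S T

end Pool.Agent.Lib.MP_6faade_an
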