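import Pool.Agent.Lib.MP_6faade_an.Star

open Set unitInterval Filter Topology
open scoped OnePoint

namespace Pool.Agent.Lib.MP_6faade_an

lemma IsotopicRel.refl (P A : Set Sphere) : IsotopicRel P A A :=
  ⟨fun _ => Homeomorph.refl _, continuous_snd, fun _ => rfl, fun _ _ _ => rfl, by simp⟩

lemma IsotopicRel.symm {P A B : Set Sphere} (h : IsotopicRel P A B) : IsotopicRel P B A := by
  obtain ⟨H, hc, h0, hP, h1⟩ := h
  let e : I × Sphere ≃ I × Sphere := Equiv.prodCongrRight fun t => (H t).toEquiv
  have hec : Continuous e := by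
    have : (e : I × Sphere → I × Sphere) = fun q => (q.1, H q.1 q.2) := by
      funext q; rfl
    rw [this]
    exact continuous_fst.prodMk hc
  have hsc : Continuous e.symm := (hec.homeoOfEquivCompactToT2).symm.continuous
  refine ⟨fun t => (H t).symm, ?_, ?_, ?_, ?_⟩
  · have : (fun q : I × Sphere => (H q.1).symm q.2) = fun q => (e.symm q).2 := by
      funext q; rfl
    rw [this]
    exact continuous_snd.comp hsc
  · intro x
    apply (H 0).injective
    rw [Homeomorph.apply_symm_apply, h0]
  · intro t x hx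
    apply (H t).injective
    simp [hP t x hx]
  · rw [← h1, ← image_comp]
    simp

/-- Joint continuity on the sphere of a uniformly proper family of plane maps. -/
lemma continuous_onePoint_family (F : I × ℂ → ℂ) (hF : Continuous F)
    (hb : ∀ t z, ‖z‖ ≤ 3 * ‖F (t, z)‖) :
    Continuous (fun q : I × Sphere => OnePoint.map (fun z => F (q.1, z)) q.2) := by
  rw [continuous_iff_continuousAt]
  rintro ⟨t, x⟩
  induction x using OnePoint.rec with
  | infty =>
    rw [ContinuousAt]
    simp only [OnePoint.map_infty]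
    rw [OnePoint.hasBasis_nhds_infty.tendsto_right_iff]
    rintro K ⟨hK1, hK2⟩
    obtain ⟨R, hR⟩ := hK2.isBounded.subset_closedBall 0
    have hmem : ((↑) '' (Metric.closedBall (0 : ℂ) (3 * R))ᶜ ∪ {∞} : Set Sphere) ∈ 𝓝 (∞ : Sphere) :=
      OnePoint.hasBasis_nhds_infty.mem_of_mem
        ⟨Metric.isClosed_closedBall, isCompact_closedBall _ _⟩
    have : ∀ᶠ q : I × Sphere in 𝓝 (t, ∞),
        q.2 ∈ ((↑) '' (Metric.closedBall (0 : ℂ) (3 * R))ᶜ ∪ {∞} : Set Sphere) :=
      (continuous_snd.tendsto (t, ∞)).eventually hmem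
    filter_upwards [this] with q hq
    rcases hq with ⟨z, hz, hq⟩ | hq
    · left
      refine ⟨F (q.1, z), ?_, by rw [← hq]; rfl⟩
      intro hK
      have h1 := hR hK
      apply hz
      simp only [Metric.mem_closedBall, dist_zero_right] at h1 ⊢
      have := hb q.1 z
      linarith
    · right
      rw [mem_singleton_iff.mp hq]; rfl
  | coe z =>
    have hemb : IsOpenEmbedding (Prod.map id (↑) : I × ℂ → I × Sphere) :=
      IsOpenEmbedding.id.prodMap OnePoint.isOpenEmbedding_coe
    have : ((t, (z : Sphere)) : I × Sphere) = Prod.map id (↑) (t, z) := rfl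
    rw [this, ← hemb.continuousAt_iff]
    exact (OnePoint.continuous_coe.comp hF).continuousAt

/-- Vertical shear of the plane. -/
noncomputable def shear (g : ℝ → ℝ) (hg : Continuous g) : ℂ ≃ₜ ℂ where
  toFun z := z + (g z.re : ℂ) * Complex.I
  invFun z := z - (g z.re : ℂ) * Complex.I
  left_inv z := by simp
  right_inv z := by simp
  continuous_toFun := by fun_prop
  continuous_invFun := by fun_prop

lemma shear_apply (g : ℝ → ℝ) (hg : Continuous g) (z : ℂ) :
    shear g hg z = z + (g z.re : ℂ) * Complex.I := rfl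

/-- A vertical shear with `|g x| ≤ |x|` is isotopic to the identity on the sphere, relative to
the set where it vanishes. -/
lemma isotopicRel_shear (g : ℝ → ℝ) (hg : Continuous g) (hb : ∀ x, |g x| ≤ |x|)
    (P A : Set Sphere) (hP : ∀ z : ℂ, (z : Sphere) ∈ P → g z.re = 0) :
    IsotopicRel P A (OnePoint.map (shear g hg) '' A) := by
  have hgt : ∀ t : I, Continuous (fun x => (t : ℝ) * g x) := fun t => by fun_prop
  refine ⟨fun t => (shear (fun x => (t : ℝ) * g x) (hgt t)).onePointCongr, ?_, ?_, ?_, ?_⟩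
  · have := continuous_onePoint_family
      (fun q => q.2 + (((q.1 : ℝ) * g q.2.re : ℝ) : ℂ) * Complex.I) (by fun_prop) ?_
    · exact this
    · intro t z
      set w : ℂ := z + (((t : ℝ) * g z.re : ℝ) : ℂ) * Complex.I with hw
      have h1 : w.re = z.re := by simp [hw]
      have h2 : w.im = z.im + (t : ℝ) * g z.re := by simp [hw]
      have h3 : |w.re| ≤ ‖w‖ := Complex.abs_re_le_norm w
      have h4 : |w.im| ≤ ‖w‖ := Complex.abs_im_le_norm w
      have h5 : ‖z‖ ≤ |z.re| + |z.im| := Complex.norm_le_abs_re_add_abs_im z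
      have h6 : |(t : ℝ) * g z.re| ≤ |z.re| := by
        rw [abs_mul, abs_of_nonneg t.2.1]
        calc (t : ℝ) * |g z.re| ≤ 1 * |g z.re| :=
              mul_le_mul_of_nonneg_right t.2.2 (abs_nonneg _)
          _ ≤ |z.re| := by rw [one_mul]; exact hb _
      have h7 : |z.im| ≤ |w.im| + |(t : ℝ) * g z.re| := by
        have : z.im = w.im - (t : ℝ) * g z.re := by rw [h2]; ring
        rw [this]
        exact abs_sub _ _
      show ‖z‖ ≤ 3 * ‖w‖
      rw [h1] at h3
      linarith
  · intro x
    induction x using OnePoint.rec with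
    | infty => rfl
    | coe z =>
      show ((shear _ (hgt 0) z : ℂ) : Sphere) = z
      simp [shear_apply]
  · intro t x hx
    induction x using OnePoint.rec with
    | infty => rfl
    | coe z =>
      show ((shear _ (hgt t) z : ℂ) : Sphere) = z
      simp [shear_apply, hP z hx]
  · congr 1
    funext x
    induction x using OnePoint.rec with
    | infty => rfl
    | coe z =>
      show ((shear _ (hgt 1) z : ℂ) : Sphere) = ((shear g hg z : ℂ) : Sphere)
      simp [shear_apply]

/-- The finite part of an isotopy fixing infinity. -/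
lemma exists_finite_part (H : I → Sphere ≃ₜ Sphere)
    (hc : Continuous (fun q : I × Sphere => H q.1 q.2)) (hinf : ∀ t, H t ∞ = ∞) :
    ∃ K : I × ℂ → ℂ, Continuous K ∧ ∀ t (z : ℂ), H t (z : Sphere) = (K (t, z) : Sphere) := by
  have h1 : ∀ q : I × ℂ, ∃ w : ℂ, (w : Sphere) = H q.1 (q.2 : Sphere) := by
    intro q
    apply OnePoint.ne_infty_iff_exists.mp
    intro e
    rw [← hinf q.1] at e
    exact OnePoint.coe_ne_infty _ ((H q.1).injective e)
  choose K hK using h1
  refine ⟨K, ?_, fun t z => (hK (t, z)).symm⟩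
  rw [OnePoint.isOpenEmbedding_coe.isInducing.continuous_iff]
  have : ((↑) : ℂ → Sphere) ∘ K = fun q : I × ℂ => H q.1 (q.2 : Sphere) := funext hK
  rw [this]
  exact hc.comp (continuous_fst.prodMk (OnePoint.continuous_coe.comp continuous_snd))

/-- First obstruction: a segment from `a` to `0` cannot be carried into a set that has no point
with real part `a / 2`. -/
lemma not_isotopic_of_gap {P A B : Set Sphere} {a : ℝ} (ha : a < 0) (hinf : ∞ ∈ P)
    (haP : ((a : ℂ) : Sphere) ∈ P) (h0P : ((0 : ℂ) : Sphere) ∈ P)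
    (hA : ∀ x : ℝ, a ≤ x → x ≤ 0 → ((x : ℂ) : Sphere) ∈ A)
    (hB : ∀ z : ℂ, (z : Sphere) ∈ B → z.re ≠ a / 2) : ¬ IsotopicRel P A B := by
  rintro ⟨H, hc, -, hP, h1⟩
  obtain ⟨K, hK, hHK⟩ := exists_finite_part H hc (fun t => hP t _ hinf)
  have hcont : Continuous (fun x : ℝ => (K (1, (x : ℂ))).re) := by fun_prop
  have e1 : K (1, (a : ℂ)) = a := by
    have := hP 1 _ haP
    rw [hHK] at this
    exact OnePoint.coe_eq_coe.mp this
  have e2 : K (1, ((0 : ℝ) : ℂ)) = 0 := by
    have := hP 1 _ h0P
    rw [hHK] at this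
    simpa using OnePoint.coe_eq_coe.mp this
  have := intermediate_value_Icc ha.le hcont.continuousOn
  simp only [e1, e2, Complex.ofReal_re, Complex.zero_re] at this
  obtain ⟨x, hx, hx'⟩ := this (show a / 2 ∈ Icc a 0 from ⟨by linarith, by linarith⟩)
  apply hB (K (1, (x : ℂ))) _ hx'
  rw [← hHK, ← h1]
  exact mem_image_of_mem _ (hA x hx.1 hx.2)

/-- Second obstruction (winding): a set in the closed upper half-plane cannot be carried,
relative to `a < 0 < b`, `0` and infinity, onto a set containing the negative imaginary axis. -/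
lemma not_isotopic_of_winding {P A B : Set Sphere} {a b : ℝ} (ha : a < 0) (hb : 0 < b)
    (hinf : ∞ ∈ P) (haP : ((a : ℂ) : Sphere) ∈ P) (hbP : ((b : ℂ) : Sphere) ∈ P)
    (h0P : ((0 : ℂ) : Sphere) ∈ P)
    (hA : ∀ z : ℂ, (z : Sphere) ∈ A → 0 ≤ z.im)
    (hB : ∀ s : ℝ, 0 ≤ s → (((-(s : ℂ) * Complex.I : ℂ)) : Sphere) ∈ B) :
    ¬ IsotopicRel P A B := by
  rintro ⟨H, hc, h0, hP, h1⟩
  obtain ⟨K, hK, hHK⟩ := exists_finite_part H hc (fun t => hP t _ hinf)
  have hfix : ∀ t (z : ℂ), (z : Sphere) ∈ P → K (t, z) = z := by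
    intro t z hz
    have := hP t _ hz
    rw [hHK] at this
    exact OnePoint.coe_eq_coe.mp this
  have hinj : ∀ t (z w : ℂ), K (t, z) = K (t, w) → z = w := by
    intro t z w e
    have : H t (z : Sphere) = H t (w : Sphere) := by rw [hHK, hHK, e]
    exact OnePoint.coe_eq_coe.mp ((H t).injective this)
  have hK0 : ∀ z : ℂ, K (0, z) = z := by
    intro z
    have := h0 (z : Sphere)
    rw [hHK] at this
    exact OnePoint.coe_eq_coe.mp this
  have hne : ∀ t (z : ℂ), z ≠ 0 → K (t, z) ≠ 0 := by
    intro t z hz e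
    rw [← hfix t 0 h0P] at e
    exact hz (hinj t _ _ e)
  -- the lower spiral from b to a, as the exponential of a segment
  let L : C(I, ℂ) := ⟨fun t => (((1 - (t : ℝ)) * Real.log b + t * Real.log (-a) : ℝ) : ℂ)
    + ((-(t : ℝ) * Real.pi : ℝ) : ℂ) * Complex.I, by fun_prop⟩
  have hL0 : Complex.exp (L 0) = b := by
    simp only [L, ContinuousMap.coe_mk, Icc.coe_zero, sub_zero, one_mul, zero_mul, add_zero,
      neg_zero, Complex.ofReal_zero]
    rw [← Complex.ofReal_exp, Real.exp_log hb]
  have hL1 : Complex.exp (L 1) = a := by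
    simp only [L, ContinuousMap.coe_mk, Icc.coe_one, sub_self, one_mul, zero_mul, zero_add]
    rw [Complex.exp_add, ← Complex.ofReal_exp, Real.exp_log (by linarith)]
    have : (((-1 * Real.pi : ℝ)) : ℂ) * Complex.I = -(Real.pi * Complex.I) := by
      push_cast; ring
    rw [this, Complex.exp_neg, Complex.exp_pi_mul_I]
    push_cast; ring
  have hLim : ∀ t : I, t ≠ 0 → t ≠ 1 → (Complex.exp (L t)).im < 0 := by
    intro t ht0 ht1
    rw [Complex.exp_im]
    apply mul_neg_of_pos_of_neg (Real.exp_pos _)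
    have : (L t).im = -((t : ℝ) * Real.pi) := by simp [L]
    rw [this, Real.sin_neg, neg_lt_zero]
    have h1 : 0 < (t : ℝ) := lt_of_le_of_ne t.2.1 (fun e => ht0 (Subtype.ext e.symm))
    have h2 : (t : ℝ) < 1 := lt_of_le_of_ne t.2.2 (fun e => ht1 (Subtype.ext e))
    apply Real.sin_pos_of_pos_of_lt_pi (mul_pos h1 Real.pi_pos)
    nlinarith [Real.pi_pos]
  -- the image path avoids the negative imaginary axis
  have hslit : ∀ t : I, -Complex.I * K (1, Complex.exp (L t)) ∈ Complex.slitPlane := by
    intro t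
    by_contra hs
    rw [Complex.mem_slitPlane_iff, not_or, not_not, not_lt] at hs
    set w := K (1, Complex.exp (L t)) with hw
    have hre : w.re = 0 := by simpa using hs.2
    have him : w.im ≤ 0 := by simpa using hs.1
    by_cases ht0 : t = 0
    · rw [hw, ht0, hL0, hfix 1 _ hbP] at hre
      simp only [Complex.ofReal_re] at hre
      linarith
    by_cases ht1 : t = 1
    · rw [hw, ht1, hL1, hfix 1 _ haP] at hre
      simp only [Complex.ofReal_re] at hre
      linarith
    have hwB : (w : Sphere) ∈ B := by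
      have := hB (-w.im) (by linarith)
      convert this using 2
      apply Complex.ext <;> simp [hre]
    rw [← h1] at hwB
    obtain ⟨x, hx, hx'⟩ := hwB
    rw [hw, ← hHK] at hx'
    rw [(H 1).injective hx'] at hx
    have := hA _ hx
    have := hLim t ht0 ht1
    linarith
  let M : C(I, ℂ) := ⟨fun t => Complex.log (-Complex.I * K (1, Complex.exp (L t)))
      + (Real.pi / 2 : ℂ) * Complex.I, by
    apply Continuous.add _ continuous_const
    apply Continuous.clog _ hslit
    fun_prop⟩
  have hM : ∀ t, Complex.exp (M t) = K (1, Complex.exp (L t)) := by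
    intro t
    simp only [M, ContinuousMap.coe_mk]
    rw [Complex.exp_add, Complex.exp_log (Complex.slitPlane_ne_zero (hslit t)),
      Complex.exp_pi_div_two_mul_I]
    have := Complex.I_mul_I
    linear_combination (-K (1, Complex.exp (L t))) * this
  have hM0 : M 0 = L 0 := by
    simp only [M, ContinuousMap.coe_mk]
    rw [hL0, hfix 1 _ hbP, mul_comm, Complex.log_ofReal_mul hb (by simp), Complex.log_neg_I]
    simp [L]
  have hM1 : (M 1).im = Real.pi := by
    simp only [M, ContinuousMap.coe_mk]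
    have : -Complex.I * (a : ℂ) = ((-a : ℝ) : ℂ) * Complex.I := by push_cast; ring
    rw [hL1, hfix 1 _ haP, this, Complex.log_ofReal_mul (by linarith) (by simp), Complex.log_I]
    simp
  let γ₀ : C(I, {z : ℂ // z ≠ 0}) :=
    ⟨fun t => ⟨Complex.exp (L t), Complex.exp_ne_zero _⟩, by fun_prop⟩
  let γ₁ : C(I, {z : ℂ // z ≠ 0}) :=
    ⟨fun t => ⟨K (1, Complex.exp (L t)), hne _ _ (Complex.exp_ne_zero _)⟩, by fun_prop⟩
  have hhom : γ₀.HomotopicRel γ₁ {0, 1} := by
    refine ⟨⟨⟨⟨fun q => ⟨K (q.1, Complex.exp (L q.2)), hne _ _ (Complex.exp_ne_zero _)⟩,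
      by fun_prop⟩, ?_, ?_⟩, ?_⟩⟩
    · intro t; apply Subtype.ext; exact hK0 _
    · intro t; rfl
    · intro s t ht
      apply Subtype.ext
      rcases ht with ht | ht
      · subst ht
        show K (s, Complex.exp (L 0)) = Complex.exp (L 0)
        rw [hL0, hfix s _ hbP]
      · rw [mem_singleton_iff.mp ht]
        show K (s, Complex.exp (L 1)) = Complex.exp (L 1)
        rw [hL1, hfix s _ haP]
  have cov := Complex.isCoveringMap_exp
  have g0 : γ₀ 0 = ⟨Complex.exp (L 0), Complex.exp_ne_zero _⟩ := rfl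
  have g1 : γ₁ 0 = ⟨Complex.exp (L 0), Complex.exp_ne_zero _⟩ := by
    apply Subtype.ext
    show K (1, Complex.exp (L 0)) = Complex.exp (L 0)
    rw [hL0, hfix 1 _ hbP]
  have key := cov.liftPath_apply_one_eq_of_homotopicRel hhom (L 0) g0 g1
  have l0 : L = cov.liftPath γ₀ (L 0) g0 := (cov.eq_liftPath_iff' _).mpr ⟨rfl, rfl⟩
  have l1 : M = cov.liftPath γ₁ (L 0) g1 := by
    refine (cov.eq_liftPath_iff' _).mpr ⟨?_, hM0⟩
    funext t
    exact Subtype.ext (hM t)
  rw [← l0, ← l1] at key
  have := congrArg Complex.im key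
  rw [hM1] at this
  have h2 : (L 1).im = -Real.pi := by simp [L]
  have := Real.pi_pos
  linarith

end Pool.Agent.Lib.MP_6faade_an
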