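import Pool.Agent.Lib.MP_6faade_an.Defs

open Set unitInterval Filter Topology
open scoped OnePoint

namespace Pool.Agent.Lib.MP_6faade_an

/-- A proper simple curve from a finite point to infinity. -/
structure Ray where
  f : ℝ → ℂ
  cont : Continuous f
  inj : InjOn f (Ici 0)
  tends : Tendsto (fun s => ‖f s‖) atTop atTop

namespace Ray

open Classical in
noncomputable def toFun (r : Ray) (t : I) : Sphere :=
  if t = 1 then ∞ else ((r.f ((t : ℝ) / (1 - t)) : ℂ) : Sphere)

lemma one_sub_pos {t : I} (h : t ≠ 1) : 0 < 1 - (t : ℝ) := by
  have h1 : (t : ℝ) ≤ 1 := t.2.2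
  have h2 : (t : ℝ) ≠ 1 := fun e => h (Subtype.ext e)
  have := lt_of_le_of_ne h1 h2
  linarith

lemma tendsto_cocompact (r : Ray) : Tendsto r.f atTop (coclosedCompact ℂ) := by
  rw [Filter.coclosedCompact_eq_cocompact, ← Metric.cobounded_eq_cocompact]
  exact tendsto_norm_atTop_iff_cobounded.mp r.tends

lemma continuous_toFun (r : Ray) : Continuous r.toFun := by
  rw [continuous_iff_continuousAt]
  intro t
  by_cases ht : t = 1
  · subst ht
    have h1 : r.toFun 1 = ∞ := by simp [toFun]
    rw [← continuousWithinAt_compl_self, ContinuousWithinAt, h1]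
    have h2 : Tendsto (fun t : I => (t : ℝ) / (1 - t)) (𝓝[≠] 1) atTop := by
      have h3 : Tendsto (fun t : I => (1 - (t : ℝ))) (𝓝[≠] 1) (𝓝[>] 0) := by
        apply tendsto_nhdsWithin_iff.mpr
        constructor
        · have : Continuous (fun t : I => (1 - (t : ℝ))) := by fun_prop
          have := this.tendsto 1
          simp only [Icc.coe_one, sub_self] at this
          exact this.mono_left nhdsWithin_le_nhds
        · filter_upwards [self_mem_nhdsWithin] with t ht
          exact one_sub_pos ht
      have h4 : Tendsto (fun t : I => (t : ℝ)) (𝓝[≠] 1) (𝓝 1) := by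
        have : Continuous (fun t : I => (t : ℝ)) := by fun_prop
        have := this.tendsto 1
        simp only [Icc.coe_one] at this
        exact this.mono_left nhdsWithin_le_nhds
      have h5 := tendsto_inv_nhdsGT_zero.comp h3
      have := Tendsto.pos_mul_atTop one_pos h4 h5
      simpa [div_eq_mul_inv, Function.comp_def] using this
    have h6 := (OnePoint.tendsto_coe_infty (X := ℂ)).comp (r.tendsto_cocompact.comp h2)
    refine h6.congr' ?_
    filter_upwards [self_mem_nhdsWithin] with t ht
    have : t ≠ 1 := ht
    simp [toFun, this]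
  · have hc : ContinuousAt (fun t : I => ((r.f ((t : ℝ) / (1 - t)) : ℂ) : Sphere)) t := by
      apply OnePoint.continuous_coe.continuousAt.comp
      apply r.cont.continuousAt.comp
      exact ContinuousAt.div (f := fun t : I => (t : ℝ)) (g := fun t : I => 1 - (t : ℝ))
        (by fun_prop) (by fun_prop) (one_sub_pos ht).ne'
    refine hc.congr ?_
    filter_upwards [isOpen_ne.mem_nhds ht] with s hs
    simp [toFun, hs]

noncomputable def path (r : Ray) : Path ((r.f 0 : ℂ) : Sphere) ∞ where
  toFun := r.toFun
  continuous_toFun := r.continuous_toFun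
  source' := by simp [toFun]
  target' := by simp [toFun]

lemma path_apply (r : Ray) (t : I) : r.path t = r.toFun t := rfl

lemma param_nonneg {t : I} (h : t ≠ 1) : 0 ≤ (t : ℝ) / (1 - t) :=
  div_nonneg t.2.1 (one_sub_pos h).le

lemma param_inj {s t : I} (hs : s ≠ 1) (ht : t ≠ 1)
    (h : (s : ℝ) / (1 - s) = (t : ℝ) / (1 - t)) : s = t := by
  have h1 := one_sub_pos hs
  have h2 := one_sub_pos ht
  rw [div_eq_div_iff h1.ne' h2.ne'] at h
  apply Subtype.ext
  linarith

lemma path_injective (r : Ray) : Function.Injective r.path := by
  intro s t h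
  rw [path_apply, path_apply] at h
  by_cases hs : s = 1 <;> by_cases ht : t = 1
  · rw [hs, ht]
  · simp [toFun, hs, ht] at h
  · simp [toFun, hs, ht] at h
  · simp only [toFun, hs, ht, if_false, OnePoint.coe_eq_coe] at h
    exact param_inj hs ht (r.inj (param_nonneg hs) (param_nonneg ht) h)

lemma path_cases (r : Ray) (t : I) :
    (t = 1 ∧ r.path t = ∞) ∨ (t ≠ 1 ∧ ∃ s, 0 ≤ s ∧ r.path t = (r.f s : ℂ) ∧ (s = 0 → t = 0)) := by
  by_cases ht : t = 1
  · left; exact ⟨ht, by simp [ht]⟩
  · right
    refine ⟨ht, _, param_nonneg ht, by simp [path_apply, toFun, ht], ?_⟩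
    intro h
    have h1 := one_sub_pos ht
    rw [div_eq_zero_iff] at h
    rcases h with h | h
    · exact Subtype.ext h
    · exact absurd h h1.ne'

lemma exists_path_eq (r : Ray) {s : ℝ} (hs : 0 ≤ s) : ∃ t : I, r.path t = (r.f s : ℂ) := by
  have h1 : 0 < 1 + s := by linarith
  refine ⟨⟨s / (1 + s), div_nonneg hs h1.le, (div_le_one h1).mpr (by linarith)⟩, ?_⟩
  have hne : (⟨s / (1 + s), div_nonneg hs h1.le, (div_le_one h1).mpr (by linarith)⟩ : I) ≠ 1 := by
    intro e
    have := congrArg Subtype.val e
    simp only [Icc.coe_one] at this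
    rw [div_eq_one_iff_eq h1.ne'] at this
    linarith
  simp only [path_apply, toFun, hne, if_false, OnePoint.coe_eq_coe]
  congr 1
  field_simp
  ring

end Ray

/-- A finite family of pairwise disjoint rays. -/
structure RayFamily (k : ℕ) where
  r : Fin k → Ray
  disj : ∀ i j, i ≠ j → ∀ s t, 0 ≤ s → 0 ≤ t → (r i).f s ≠ (r j).f t

namespace RayFamily

variable {k : ℕ} (F : RayFamily k)

noncomputable def pos : Option (Fin k) → Sphere
  | none => ∞
  | some i => (((F.r i).f 0 : ℂ) : Sphere)

noncomputable def arc : ∀ u v : Option (Fin k), (SimpleGraph.starGraph none).Adj u v →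
    Path (F.pos u) (F.pos v)
  | none, none, h => absurd h (by simp)
  | some i, none, _ => (F.r i).path
  | none, some i, _ => (F.r i).path.symm
  | some _, some _, h => absurd h (by simp)

lemma path_eq_pos (i : Fin k) (w : Option (Fin k)) (t : I) (h : (F.r i).path t = F.pos w) :
    t = 0 ∨ t = 1 := by
  rcases (F.r i).path_cases t with ⟨h1, _⟩ | ⟨h1, s, hs, h2, h3⟩
  · exact Or.inr h1
  · left
    rw [h2] at h
    cases w with
    | none => simp [pos] at h
    | some j =>
      simp only [pos, OnePoint.coe_eq_coe] at h
      by_cases hij : i = j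
      · subst hij
        exact h3 ((F.r i).inj hs (le_refl (0 : ℝ)) h)
      · exact absurd h (F.disj i j hij s 0 hs le_rfl)

lemma path_eq_path (i j : Fin k) (hij : i ≠ j) (t t' : I) (h : (F.r i).path t = (F.r j).path t') :
    t = 1 ∧ t' = 1 := by
  rcases (F.r i).path_cases t with ⟨h1, h1'⟩ | ⟨h1, s, hs, h2, h3⟩ <;>
  rcases (F.r j).path_cases t' with ⟨g1, g1'⟩ | ⟨g1, s', hs', g2, g3⟩
  · exact ⟨h1, g1⟩
  · rw [h1', g2] at h; simp at h
  · rw [g1', h2] at h; simp at h
  · rw [h2, g2] at h
    exact absurd (OnePoint.coe_eq_coe.mp h) (F.disj i j hij s s' hs hs')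

lemma symm_cases {t : I} (h : σ t = 0 ∨ σ t = 1) : t = 0 ∨ t = 1 := by
  rcases h with h | h
  · right; simpa using h
  · left; simpa using h

noncomputable def tree : SphereTree where
  V := Option (Fin k)
  finite := inferInstance
  graph := SimpleGraph.starGraph none
  isTree := SimpleGraph.isTree_starGraph _
  pos := F.pos
  pos_injective := by
    intro u v h
    cases u with
    | none => cases v with
      | none => rfl
      | some j => simp [pos] at h
    | some i => cases v with
      | none => simp [pos] at h
      | some j =>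
        simp only [pos, OnePoint.coe_eq_coe] at h
        by_contra hij
        exact F.disj i j (fun e => hij (by rw [e])) 0 0 le_rfl le_rfl h
  arc := F.arc
  arc_injective := by
    intro u v h
    cases u with
    | none => cases v with
      | none => simp at h
      | some j =>
        intro s t e
        have : σ s = σ t := (F.r j).path_injective e
        simpa using this
    | some i => cases v with
      | none => exact (F.r i).path_injective
      | some j => simp at h
  arc_symm := by
    intro u v h
    cases u with
    | none => cases v with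
      | none => simp at h
      | some j => exact (Path.symm_symm _).symm
    | some i => cases v with
      | none => rfl
      | some j => simp at h
  arc_node := by
    intro u v h w t e
    cases u with
    | none => cases v with
      | none => simp at h
      | some j => exact symm_cases (F.path_eq_pos j w (σ t) e)
    | some i => cases v with
      | none => exact F.path_eq_pos i w t e
      | some j => simp at h
  arc_arc := by
    intro u v h u' v' h' hne t t' e
    cases u with
    | none => cases v with
      | none => simp at h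
      | some i =>
        cases u' with
        | none => cases v' with
          | none => simp at h'
          | some j =>
            have hij : i ≠ j := fun e => hne (by rw [e])
            have := F.path_eq_path i j hij (σ t) (σ t') e
            exact ⟨symm_cases (Or.inr this.1), symm_cases (Or.inr this.2)⟩
        | some j => cases v' with
          | none =>
            have hij : i ≠ j := fun e => hne (by rw [e, Sym2.eq_swap])
            have := F.path_eq_path i j hij (σ t) t' e
            exact ⟨symm_cases (Or.inr this.1), Or.inr this.2⟩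
          | some j' => simp at h'
    | some i => cases v with
      | none =>
        cases u' with
        | none => cases v' with
          | none => simp at h'
          | some j =>
            have hij : i ≠ j := fun e => hne (by rw [e, Sym2.eq_swap])
            have := F.path_eq_path i j hij t (σ t') e
            exact ⟨Or.inr this.1, symm_cases (Or.inr this.2)⟩
        | some j => cases v' with
          | none =>
            have hij : i ≠ j := fun e => hne (by rw [e])
            have := F.path_eq_path i j hij t t' e
            exact ⟨Or.inr this.1, Or.inr this.2⟩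
          | some j' => simp at h'
      | some j => simp at h

lemma mem_carrier (x : Sphere) :
    x ∈ F.tree.carrier ↔ x = ∞ ∨ ∃ i s, 0 ≤ s ∧ x = (((F.r i).f s : ℂ) : Sphere) := by
  have key : ∀ i (t : I), (F.r i).path t = ∞ ∨
      ∃ i' s, 0 ≤ s ∧ (F.r i).path t = (((F.r i').f s : ℂ) : Sphere) := by
    intro i t
    rcases (F.r i).path_cases t with ⟨_, h⟩ | ⟨_, s, hs, h, _⟩
    · exact Or.inl h
    · exact Or.inr ⟨i, s, hs, h⟩
  constructor
  · rintro (⟨u, rfl⟩ | ⟨u, v, h, t, rfl⟩)
    · cases u with
      | none => exact Or.inl rfl
      | some i => exact Or.inr ⟨i, 0, le_rfl, rfl⟩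
    · cases u with
      | none => cases v with
        | none => exact absurd h (SimpleGraph.irrefl _)
        | some j => exact key j (σ t)
      | some i => cases v with
        | none => exact key i t
        | some j => exact absurd h (by simp [tree])
  · rintro (rfl | ⟨i, s, hs, rfl⟩)
    · exact Or.inl ⟨none, rfl⟩
    · obtain ⟨t, ht⟩ := (F.r i).exists_path_eq hs
      exact Or.inr ⟨some i, none, by simp [tree], t, ht.symm⟩

lemma pos_mem {P : Set Sphere} (h1 : ∞ ∈ P) (h2 : ∀ i, (((F.r i).f 0 : ℂ) : Sphere) ∈ P)
    (u : Option (Fin k)) : F.pos u ∈ P := by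
  cases u with
  | none => exact h1
  | some i => exact h2 i

lemma endpoints_subset {P : Set Sphere} (h1 : ∞ ∈ P)
    (h2 : ∀ i, (((F.r i).f 0 : ℂ) : Sphere) ∈ P) : F.tree.endpoints ⊆ P := by
  rintro _ ⟨u, _, rfl⟩
  exact F.pos_mem h1 h2 u

lemma vertexSet_eq {P : Set Sphere} (h1 : ∞ ∈ P)
    (h2 : ∀ i, (((F.r i).f 0 : ℂ) : Sphere) ∈ P) : F.tree.vertexSet P = P := by
  apply union_eq_left.mpr
  rintro _ ⟨u, _, rfl⟩
  exact F.pos_mem h1 h2 u

end RayFamily

end Pool.Agent.Lib.MP_6faade_an
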